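import Pool.Agent.W979.TE.Defs

/-!
# Part TE-UF: uniform finiteness of coordinate projections
-/

set_option autoImplicit false
set_option maxHeartbeats 1000000

open PrimeSpectrum TensorProduct

namespace Pool.Agent.W975.TE

/-! ### Points of finite type algebras over algebraically closed fields -/

/-- the kernel of a ring homomorphism to a field as a point of the spectrum -/
def kp {A K : Type} [CommRing A] [Field K] (ev : A →+* K) : PrimeSpectrum A :=
  ⟨RingHom.ker ev, RingHom.ker_isPrime ev⟩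

theorem lift_of_mem {A B K : Type} [CommRing A] [CommRing B] [Field K] [IsAlgClosed K]
    (ψ : A →+* B) (hψ : ψ.FiniteType) (ev : A →+* K) (h : kp ev ∈ Set.range (comap ψ)) :
    ∃ ρ : B →+* K, ρ.comp ψ = ev := by
  algebraize [ψ]
  set p : PrimeSpectrum A := kp ev with hp
  have hmem : p ∈ Set.range (comap (algebraMap A B)) := h
  have hnt : Nontrivial (p.asIdeal.ResidueField ⊗[A] B) :=
    (PrimeSpectrum.nontrivial_iff_mem_rangeComap p).2 hmem
  set k := p.asIdeal.ResidueField with hk
  set F := k ⊗[A] B with hF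
  obtain ⟨m, hm⟩ := Ideal.exists_maximal F
  letI : Field (F ⧸ m) := Ideal.Quotient.field m
  haveI : Algebra.FiniteType A B := ‹_›
  haveI : Algebra.FiniteType k F := inferInstance
  haveI : Algebra.FiniteType k (F ⧸ m) := inferInstance
  haveI : Module.Finite k (F ⧸ m) := finite_of_finite_type_of_isJacobsonRing k (F ⧸ m)
  have h1 : p.asIdeal ≤ RingHom.ker ev := le_refl _
  have h2 : p.asIdeal.primeCompl ≤ (IsUnit.submonoid K).comap ev := by
    intro x hx
    have : ev x ≠ 0 := fun h0 => hx h0
    exact this.isUnit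
  letI : Algebra k K := (Ideal.ResidueField.lift p.asIdeal ev h1 h2).toAlgebra
  haveI : Algebra.IsAlgebraic k (F ⧸ m) := inferInstance
  let g : F ⧸ m →ₐ[k] K := IsAlgClosed.lift
  let ι : B →+* F := (Algebra.TensorProduct.includeRight : B →ₐ[A] F).toRingHom
  refine ⟨(g.toRingHom.comp (Ideal.Quotient.mk m)).comp ι, ?_⟩
  ext a
  have e1 : ι (ψ a) = algebraMap k F (algebraMap A k a) := by
    have e2 : ι (ψ a) = algebraMap A F a :=
      (Algebra.TensorProduct.includeRight : B →ₐ[A] F).commutes a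
    rw [e2]
    rfl
  simp only [RingHom.comp_apply]
  rw [e1]
  have e3 : (Ideal.Quotient.mk m) (algebraMap k F (algebraMap A k a)) =
      algebraMap k (F ⧸ m) (algebraMap A k a) := rfl
  rw [e3]
  have e4 : g.toRingHom (algebraMap k (F ⧸ m) (algebraMap A k a)) =
      algebraMap k K (algebraMap A k a) := g.commutes _
  rw [e4]
  exact Ideal.ResidueField.lift_algebraMap p.asIdeal ev h1 h2 a

theorem mem_of_lift {A B K : Type} [CommRing A] [CommRing B] [Field K]
    (ψ : A →+* B) (ev : A →+* K) (ρ : B →+* K) (h : ρ.comp ψ = ev) :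
    kp ev ∈ Set.range (comap ψ) := by
  refine ⟨kp ρ, ?_⟩
  apply PrimeSpectrum.ext
  change Ideal.comap ψ (RingHom.ker ρ) = RingHom.ker ev
  rw [← h]
  rfl

/-! ### The family -/

section fam

variable {σ τ : Type} [Fintype σ] [Fintype τ]

/-- the map from `R[Y]` -/
noncomputable def phi (σ : Type) {τ : Type} (i : τ) :
    Polynomial (MvPolynomial σ ℤ) →+* MvPolynomial (σ ⊕ τ) ℤ :=
  Polynomial.eval₂RingHom (MvPolynomial.rename (R := ℤ) (Sum.inl : σ → σ ⊕ τ)).toRingHom
    (MvPolynomial.X (Sum.inr i))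

/-- evaluation -/
noncomputable def evv {K : Type} [Field K] (θ : σ → K) (y : K) :
    Polynomial (MvPolynomial σ ℤ) →+* K :=
  Polynomial.eval₂RingHom (MvPolynomial.aeval (R := ℤ) θ).toRingHom y

/-- the map to the quotient -/
noncomputable def psi (S : Finset (MvPolynomial (σ ⊕ τ) ℤ)) (i : τ) :
    Polynomial (MvPolynomial σ ℤ) →+* MvPolynomial (σ ⊕ τ) ℤ ⧸ Ideal.span (S : Set (MvPolynomial (σ ⊕ τ) ℤ)) :=
  (Ideal.Quotient.mk _).comp (phi σ i)

theorem psi_fp (S : Finset (MvPolynomial (σ ⊕ τ) ℤ)) (i : τ) : (psi S i).FinitePresentation := by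
  have h1 : Algebra.FinitePresentation ℤ
      (MvPolynomial (σ ⊕ τ) ℤ ⧸ Ideal.span (S : Set (MvPolynomial (σ ⊕ τ) ℤ))) :=
    Algebra.FinitePresentation.quotient ⟨S, rfl⟩
  refine RingHom.FinitePresentation.of_comp_finiteType
    (algebraMap ℤ (Polynomial (MvPolynomial σ ℤ))) ?_ ?_
  · have h2 : (psi S i).comp (algebraMap ℤ (Polynomial (MvPolynomial σ ℤ))) =
        algebraMap ℤ (MvPolynomial (σ ⊕ τ) ℤ ⧸ Ideal.span (S : Set (MvPolynomial (σ ⊕ τ) ℤ))) :=
      RingHom.ext_int _ _
    rw [h2]
    exact RingHom.finitePresentation_algebraMap.2 h1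
  · have h3 : Algebra.FiniteType ℤ (Polynomial (MvPolynomial σ ℤ)) := inferInstance
    exact RingHom.finiteType_algebraMap.2 h3

theorem key {K : Type} [Field K] [IsAlgClosed K] (S : Finset (MvPolynomial (σ ⊕ τ) ℤ)) (i : τ)
    (θ : σ → K) (y : K) :
    (∃ v : τ → K, v i = y ∧ ∀ P ∈ S, MvPolynomial.aeval (Sum.elim θ v) P = 0) ↔
      kp (evv θ y) ∈ Set.range (comap (psi S i)) := by
  constructor
  · rintro ⟨v, hv, hS⟩
    have hI : ∀ a ∈ Ideal.span (S : Set (MvPolynomial (σ ⊕ τ) ℤ)),
        (MvPolynomial.aeval (R := ℤ) (Sum.elim θ v)).toRingHom a = 0 := by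
      intro a ha
      have hle : Ideal.span (S : Set (MvPolynomial (σ ⊕ τ) ℤ)) ≤
          RingHom.ker (MvPolynomial.aeval (R := ℤ) (Sum.elim θ v)).toRingHom :=
        Ideal.span_le.2 fun P hP => hS P hP
      exact hle ha
    refine mem_of_lift _ _ (Ideal.Quotient.lift _ _ hI) ?_
    refine Polynomial.ringHom_ext (fun r => ?_) ?_
    · simp only [psi, phi, evv, RingHom.comp_apply, Ideal.Quotient.lift_mk,
        Polynomial.coe_eval₂RingHom, Polynomial.eval₂_C]
      change MvPolynomial.aeval (Sum.elim θ v) (MvPolynomial.rename Sum.inl r) =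
        MvPolynomial.aeval θ r
      rw [MvPolynomial.aeval_rename, Sum.elim_comp_inl]
    · simp only [psi, phi, evv, RingHom.comp_apply, Ideal.Quotient.lift_mk,
        Polynomial.coe_eval₂RingHom, Polynomial.eval₂_X]
      change MvPolynomial.aeval (Sum.elim θ v) (MvPolynomial.X (Sum.inr i)) = y
      rw [MvPolynomial.aeval_X, Sum.elim_inr, hv]
  · intro h
    obtain ⟨ρ, hρ⟩ := lift_of_mem (psi S i) (RingHom.FiniteType.of_finitePresentation (psi_fp S i)) (evv θ y) h
    have hρ' : ∀ a, ρ (psi S i a) = evv θ y a := fun a => RingHom.congr_fun hρ a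
    refine ⟨fun j => ρ (Ideal.Quotient.mk _ (MvPolynomial.X (Sum.inr j))), ?_, ?_⟩
    · have := hρ' Polynomial.X
      simpa [psi, phi, evv] using this
    · intro P hP
      have he : (MvPolynomial.aeval (R := ℤ) (Sum.elim θ
          (fun j => ρ (Ideal.Quotient.mk _ (MvPolynomial.X (Sum.inr j)))))).toRingHom =
          ρ.comp (Ideal.Quotient.mk _) := by
        refine MvPolynomial.ringHom_ext (fun r => ?_) (fun q => ?_)
        · simp
        · rcases q with q | q
          · have := hρ' (Polynomial.C (MvPolynomial.X q))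
            simp only [psi, phi, evv, RingHom.comp_apply, Polynomial.coe_eval₂RingHom,
              Polynomial.eval₂_C] at this
            have h3 : (MvPolynomial.rename (R := ℤ) (Sum.inl : σ → σ ⊕ τ)).toRingHom
                (MvPolynomial.X q) = MvPolynomial.X (Sum.inl q) := MvPolynomial.rename_X _ _
            have h4 : (MvPolynomial.aeval (R := ℤ) θ).toRingHom (MvPolynomial.X q) = θ q :=
              MvPolynomial.aeval_X _ _
            rw [h3, h4] at this
            rw [RingHom.comp_apply, this]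
            exact MvPolynomial.aeval_X _ _
          · rw [RingHom.comp_apply]
            exact MvPolynomial.aeval_X _ _
      have h5 : MvPolynomial.aeval (Sum.elim θ
          (fun j => ρ (Ideal.Quotient.mk _ (MvPolynomial.X (Sum.inr j))))) P =
          ρ (Ideal.Quotient.mk _ P) := RingHom.congr_fun he P
      rw [h5, Ideal.Quotient.eq_zero_iff_mem.2 (Ideal.subset_span hP), map_zero]

theorem evv_eq {K : Type} [Field K] (θ : σ → K) (y : K) (g : Polynomial (MvPolynomial σ ℤ)) :
    evv θ y g = (g.map (MvPolynomial.aeval (R := ℤ) θ).toRingHom).eval y := by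
  unfold evv
  rw [Polynomial.coe_eval₂RingHom, Polynomial.eval_map]

end fam

open Classical in
theorem uf : Pool.Agent.W979.TE.S_UF := by
  intro σ τ _ _ S i
  obtain ⟨T, hT⟩ := PrimeSpectrum.exists_constructibleSetData_iff.2
    (PrimeSpectrum.isConstructible_range_comap (psi_fp S i))
  refine ⟨∑ D ∈ T, ∑ k, (D.g k).natDegree, fun K _ _ θ hfin => ?_⟩
  set φθ : MvPolynomial σ ℤ →+* K := (MvPolynomial.aeval (R := ℤ) θ).toRingHom with hφθ
  have hmem : ∀ y : K, (∃ v : τ → K, v i = y ∧ ∀ P ∈ S, MvPolynomial.aeval (Sum.elim θ v) P = 0) ↔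
      ∃ D ∈ T, (∀ k, ((D.g k).map φθ).eval y = 0) ∧ (D.f.map φθ).eval y ≠ 0 := by
    intro y
    rw [key S i θ y, ← hT]
    unfold PrimeSpectrum.ConstructibleSetData.toSet
    simp only [Set.mem_iUnion, exists_prop, PrimeSpectrum.BasicConstructibleSetData.toSet,
      Set.mem_diff, PrimeSpectrum.mem_zeroLocus, Set.singleton_subset_iff, Set.range_subset_iff,
      SetLike.mem_coe]
    refine exists_congr fun D => and_congr Iff.rfl (and_congr ?_ ?_)
    · refine forall_congr' fun k => ?_
      rw [← evv_eq]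
      rfl
    · rw [← evv_eq]
      rfl
  set Z : PrimeSpectrum.BasicConstructibleSetData (Polynomial (MvPolynomial σ ℤ)) → Finset K :=
    fun D => if h : ∃ k, (D.g k).map φθ ≠ 0 then ((D.g h.choose).map φθ).roots.toFinset else ∅
    with hZ
  have hZc : ∀ D, (Z D).card ≤ ∑ k, (D.g k).natDegree := by
    intro D
    simp only [hZ]
    split_ifs with h
    · refine (Multiset.toFinset_card_le _).trans ((Polynomial.card_roots' _).trans ?_)
      refine (Polynomial.natDegree_map_le).trans ?_
      exact Finset.single_le_sum (f := fun k => (D.g k).natDegree) (fun _ _ => Nat.zero_le _)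
        (Finset.mem_univ h.choose)
    · simp
  have hsub : {y : K | ∃ v : τ → K, v i = y ∧
      ∀ P ∈ S, MvPolynomial.aeval (Sum.elim θ v) P = 0} ⊆ ((T.biUnion Z : Finset K) : Set K) := by
    intro y hy
    obtain ⟨D, hD, hg, hf⟩ := (hmem y).1 hy
    rw [Finset.mem_coe, Finset.mem_biUnion]
    refine ⟨D, hD, ?_⟩
    simp only [hZ]
    by_cases h : ∃ k, (D.g k).map φθ ≠ 0
    · rw [dif_pos h, Multiset.mem_toFinset, Polynomial.mem_roots h.choose_spec]
      exact hg _
    · exfalso
      push Not at h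
      have hf0 : D.f.map φθ ≠ 0 := by
        intro h0; rw [h0] at hf; simp at hf
      have hinf : ({y : K | ∃ v : τ → K, v i = y ∧
          ∀ P ∈ S, MvPolynomial.aeval (Sum.elim θ v) P = 0}).Infinite := by
        haveI : Infinite K := IsAlgClosed.instInfinite
        have h1 : (((D.f.map φθ).roots.toFinset : Set K)ᶜ).Infinite :=
          (Finset.finite_toSet _).infinite_compl
        refine h1.mono fun z hz => ?_
        refine (hmem z).2 ⟨D, hD, fun k => by rw [h k]; simp, fun h0 => hz ?_⟩
        rw [Finset.mem_coe, Multiset.mem_toFinset, Polynomial.mem_roots hf0]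
        exact h0
      exact hinf hfin
  calc ({y : K | ∃ v : τ → K, v i = y ∧
      ∀ P ∈ S, MvPolynomial.aeval (Sum.elim θ v) P = 0}).ncard
      ≤ ((T.biUnion Z : Finset K) : Set K).ncard :=
        Set.ncard_le_ncard hsub (Finset.finite_toSet _)
    _ = (T.biUnion Z).card := Set.ncard_coe_finset _
    _ ≤ ∑ D ∈ T, (Z D).card := Finset.card_biUnion_le
    _ ≤ ∑ D ∈ T, ∑ k, (D.g k).natDegree := Finset.sum_le_sum fun D _ => hZc D

end Pool.Agent.W975.TE
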